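import Pool.Agent.Q7.CF.Stm4

/-!
# Project CF, part 3: the classes of the points of the Jacobians (helper224)
-/

set_option autoImplicit false

namespace Pool.Agent.Q224.CF

open Polynomial NumberField IsDedekindDomain
open Pool.Agent.Q7.CF

section Sim

variable {B : Type} [CommRing B]

theorem sim_refl [Nontrivial B] (I : Ideal B) : Sim I I := ⟨1, 1, one_ne_zero, one_ne_zero, rfl⟩

theorem sim_symm {I J : Ideal B} (h : Sim I J) : Sim J I := by
  obtain ⟨a, b, ha, hb, h⟩ := h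
  exact ⟨b, a, hb, ha, h.symm⟩

theorem sim_trans [IsDomain B] {I J K : Ideal B} (h1 : Sim I J) (h2 : Sim J K) : Sim I K := by
  obtain ⟨a, b, ha, hb, h1⟩ := h1
  obtain ⟨c, d, hc, hd, h2⟩ := h2
  refine ⟨c * a, b * d, mul_ne_zero hc ha, mul_ne_zero hb hd, ?_⟩
  rw [← Ideal.span_singleton_mul_span_singleton, ← Ideal.span_singleton_mul_span_singleton, mul_assoc, h1,
    mul_assoc, ← h2, ← mul_assoc, ← mul_assoc, mul_comm (Ideal.span {c})]

/-- similarity is compatible with injective homomorphisms of rings -/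
theorem sim_map {B' : Type} [CommRing B'] {I J : Ideal B} (h : Sim I J)
    (f : B →+* B') (hf : Function.Injective f) : Sim (I.map f) (J.map f) := by
  obtain ⟨a, b, ha, hb, h⟩ := h
  refine ⟨f a, f b, (map_ne_zero_iff f hf).2 ha, (map_ne_zero_iff f hf).2 hb, ?_⟩
  have h1 := congrArg (Ideal.map f) h
  rw [Ideal.map_mul, Ideal.map_mul, Ideal.map_span, Ideal.map_span, Set.image_singleton, Set.image_singleton] at h1
  exact h1

theorem ne_bot_map {R S : Type} [CommRing R] [CommRing S] (f : R →+* S) (hf : Function.Injective f) {I : Ideal R}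
    (hI : I ≠ ⊥) : I.map f ≠ ⊥ := by
  intro h
  rw [Ideal.map_eq_bot_iff_of_injective hf] at h
  exact hI h

theorem sim_span_top [Nontrivial B] {b : B} (hb : b ≠ 0) : Sim (Ideal.span {b}) (⊤ : Ideal B) :=
  ⟨1, b, one_ne_zero, hb, by rw [Ideal.span_singleton_one, Ideal.mul_top, Ideal.top_mul]⟩

end Sim

section sg

variable {p r : ℕ} [Fact p.Prime] {L : Type} [Field L]

omit [Fact p.Prime] in
theorem sg_alg (D ζ : L) (h : ζ ^ p = 1) (c : L) :
    sg p r D ζ h (algebraMap L (BQ p r D) c) = algebraMap L (BQ p r D) c :=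
  Subtype.ext (sF_of p D ζ h (C c))

omit [Fact p.Prime] in
theorem sg_uu (D ζ : L) (h : ζ ^ p = 1) : sg p r D ζ h (uu p r D) = uu p r D := by
  refine Subtype.ext ?_
  rw [sg_val]
  change sF p D ζ h (XF p D ^ p) = XF p D ^ p
  rw [map_pow, sF_XF]

omit [Fact p.Prime] in
theorem sF_sF (D ζ ζ' : L) (h : ζ ^ p = 1) (h' : ζ' ^ p = 1) (hh : ζ * ζ' = 1) (b : RF p D) :
    sF p D ζ' h' (sF p D ζ h b) = b := by
  have h2 : ((sF p D ζ' h').comp (sF p D ζ h)) = AlgHom.id L[X] (RF p D) := by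
    refine AdjoinRoot.algHom_ext ?_
    change sF p D ζ' h' (sF p D ζ h (YF p D)) = YF p D
    rw [sF_YF, map_mul, sF_YF]
    change sF p D ζ' h' (AdjoinRoot.of (fF p D) (C ζ)) * _ = _
    rw [sF_of, ← mul_assoc]
    change AdjoinRoot.of (fF p D) (C ζ) * AdjoinRoot.of (fF p D) (C ζ') * _ = _
    rw [← map_mul, ← C_mul, hh, C_1, map_one, one_mul]
  exact AlgHom.congr_fun h2 b

omit [Fact p.Prime] in
theorem sg_sg (D ζ ζ' : L) (h : ζ ^ p = 1) (h' : ζ' ^ p = 1) (hh : ζ * ζ' = 1) (b : BQ p r D) :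
    sg p r D ζ' h' (sg p r D ζ h b) = b :=
  Subtype.ext (sF_sF D ζ ζ' h h' hh b)

theorem sg_bij (D ζ : L) (h : ζ ^ p = 1) : Function.Bijective (sg p r D ζ h) := by
  have hp : 0 < p := (Fact.out (p := p.Prime)).pos
  have hh : ζ ^ (p - 1) * ζ = 1 := by
    rw [← pow_succ, Nat.sub_add_cancel hp, h]
  have h' : (ζ ^ (p - 1)) ^ p = 1 := by rw [← pow_mul, mul_comm, pow_mul, h, one_pow]
  exact ⟨sg_injective p r D ζ h, fun b => ⟨sg p r D (ζ ^ (p - 1)) h' b, sg_sg D _ _ h' h hh b⟩⟩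

/-- `σ` as an isomorphism -/
noncomputable def sgE (D ζ : L) (h : ζ ^ p = 1) : BQ p r D ≃ₐ[L] BQ p r D :=
  AlgEquiv.ofBijective (AlgHom.mk (sg p r D ζ h) (sg_alg D ζ h)) (sg_bij D ζ h)

theorem nm_sg (D ζ : L) (h : ζ ^ p = 1) (I : Ideal (BQ p r D)) :
    nm p r D (I.map (sg p r D ζ h)) = nm p r D I := by
  have hI : I.map (sg p r D ζ h) = I.map ((sgE (r := r) D ζ h : BQ p r D ≃ₐ[L] BQ p r D) : BQ p r D →+* BQ p r D) := rfl
  let e := Ideal.quotientEquivAlg I (I.map (sg p r D ζ h)) (sgE (r := r) D ζ h) hI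
  have he : e (Ideal.Quotient.mk I (uu p r D)) = Ideal.Quotient.mk (I.map (sg p r D ζ h)) (uu p r D) := by
    have h1 : e (Ideal.Quotient.mk I (uu p r D)) =
        Ideal.Quotient.mk (I.map (sg p r D ζ h)) (sg p r D ζ h (uu p r D)) := rfl
    rw [h1, sg_uu]
  unfold nm
  rw [← he]
  exact Algebra.norm_eq_of_algEquiv e _

end sg

/-- `a` is, up to `p`-th powers, the class of the point `P` -/
def Clj (p r : ℕ) [Fact p.Prime] [Ok p r] {F : Type} [Field F] (D : F) (L : Type) [Field L] [Algebra F L]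
    (P : Jp p r D L) (a : L) : Prop :=
  a ≠ 0 ∧ ∃ I : Ideal (BQ p r (algebraMap F L D)), IsCls p r D P I ∧
    ∃ s : L, s ≠ 0 ∧ nm p r (algebraMap F L D) I = a * s ^ p

section Cl

variable {p r : ℕ} [Fact p.Prime] [Ok p r] {F : Type} [Field F] [CharZero F] {D : F}

omit [CharZero F] in
theorem clj_mul_pow {L : Type} [Field L] [Algebra F L] {P : Jp p r D L} {a s : L}
    (h : Clj p r D L P a) (hs : s ≠ 0) : Clj p r D L P (a * s ^ p) := by
  obtain ⟨ha, I, hI, t, ht, hn⟩ := h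
  refine ⟨mul_ne_zero ha (pow_ne_zero p hs), I, hI, t / s, div_ne_zero ht hs, ?_⟩
  rw [hn, div_pow]
  have := pow_ne_zero p hs
  field_simp

theorem clj_ex (hDED : S_DED) (hNMM : S_NMM) (hMV : S_MV) (hDIC : S_DIC) (hD : D ≠ 0)
    {L : Type} [Field L] [Algebra F L] (P : Jp p r D L) : ∃ a, Clj p r D L P a := by
  have hc : CharZero L := charZero_of_injective_algebraMap (algebraMap F L).injective
  have hDL : algebraMap F L D ≠ 0 := (_root_.map_ne_zero _).2 hD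
  obtain ⟨d1, -, d3, d4, -⟩ := hDIC p r F D hD L
  obtain ⟨I, hI⟩ := d1 P
  obtain ⟨J, hJ, hs, hJ1, -⟩ := (hMV p r L _ hDL).1 I (d3 P I hI)
  have hn : nm p r (algebraMap F L D) J ≠ 0 := fun h0 =>
    hJ1 (((hNMM p r L _ hDL).2.2.2.1 J hJ).1.1 h0)
  obtain ⟨Q, hQ⟩ := (hDIC p r F D hD L).2.1 J hJ
  have hPQ : P = Q := (d4 P Q I J hI hQ).1.2 hs
  refine ⟨_, hn, J, hPQ ▸ hQ, 1, one_ne_zero, ?_⟩
  rw [one_pow, mul_one]

theorem clj_uniq (hMV : S_MV) (hDIC : S_DIC) (hD : D ≠ 0)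
    {L : Type} [Field L] [Algebra F L] {P : Jp p r D L} {a b : L} (h : Clj p r D L P a) (h' : Clj p r D L P b) :
    ∃ s : L, s ≠ 0 ∧ b = a * s ^ p := by
  have hc : CharZero L := charZero_of_injective_algebraMap (algebraMap F L).injective
  have hDL : algebraMap F L D ≠ 0 := (_root_.map_ne_zero _).2 hD
  obtain ⟨-, -, d3, d4, -⟩ := hDIC p r F D hD L
  obtain ⟨ha, I, hI, s, hs, hnI⟩ := h
  obtain ⟨hb, J, hJ, t, ht, hnJ⟩ := h'
  have hIJ : Sim J I := (d4 P P J I hJ hI).1.1 rfl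
  obtain ⟨x, hx, e⟩ := (hMV p r L _ hDL).2 J I (d3 P J hJ) (d3 P I hI) hIJ
    (by rw [hnJ]; exact mul_ne_zero hb (pow_ne_zero p ht)) (by rw [hnI]; exact mul_ne_zero ha (pow_ne_zero p hs))
  refine ⟨s * x / t, div_ne_zero (mul_ne_zero hs hx) ht, ?_⟩
  rw [hnI, hnJ] at e
  have := pow_ne_zero p ht
  rw [div_pow, mul_pow, mul_div_assoc', eq_div_iff this, e]
  ring

theorem clj_add (hNMM : S_NMM) (hDIC : S_DIC) (hD : D ≠ 0)
    {L : Type} [Field L] [Algebra F L] {P Q : Jp p r D L} {a b : L} (h : Clj p r D L P a) (h' : Clj p r D L Q b) :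
    Clj p r D L (P + Q) (a * b) := by
  have hc : CharZero L := charZero_of_injective_algebraMap (algebraMap F L).injective
  have hDL : algebraMap F L D ≠ 0 := (_root_.map_ne_zero _).2 hD
  obtain ⟨-, -, d3, d4, -⟩ := hDIC p r F D hD L
  obtain ⟨ha, I, hI, s, hs, hnI⟩ := h
  obtain ⟨hb, J, hJ, t, ht, hnJ⟩ := h'
  refine ⟨mul_ne_zero ha hb, I * J, (d4 P Q I J hI hJ).2, s * t, mul_ne_zero hs ht, ?_⟩
  rw [((hNMM p r L _ hDL).1 I J (d3 P I hI) (d3 Q J hJ)).1, hnI, hnJ]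
  ring

theorem clj_zero (hNMM : S_NMM) (hDIC : S_DIC) (hD : D ≠ 0)
    {L : Type} [Field L] [Algebra F L] : Clj p r D L 0 1 := by
  have hc : CharZero L := charZero_of_injective_algebraMap (algebraMap F L).injective
  have hDL : algebraMap F L D ≠ 0 := (_root_.map_ne_zero _).2 hD
  obtain ⟨-, -, -, -, d5, -⟩ := hDIC p r F D hD L
  refine ⟨one_ne_zero, ⊤, d5, 1, one_ne_zero, ?_⟩
  rw [(hNMM p r L _ hDL).2.1]
  ring

theorem clj_nsmul (hNMM : S_NMM) (hDIC : S_DIC) (hD : D ≠ 0)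
    {L : Type} [Field L] [Algebra F L] {P : Jp p r D L} {a : L} (h : Clj p r D L P a) (n : ℕ) :
    Clj p r D L (n • P) (a ^ n) := by
  induction n with
  | zero =>
    rw [pow_zero, zero_nsmul]
    exact clj_zero hNMM hDIC hD
  | succ n ih =>
    rw [pow_succ, succ_nsmul]
    exact clj_add hNMM hDIC hD ih h

theorem clj_om (hDIC : S_DIC) (hD : D ≠ 0) {ζ : F} (hζ : ζ ^ p = 1)
    {L : Type} [Field L] [Algebra F L] {P : Jp p r D L} {a : L} (h : Clj p r D L P a) :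
    Clj p r D L (om p r D ζ hζ L P) a := by
  obtain ⟨-, -, -, -, -, -, d7, -⟩ := hDIC p r F D hD L
  obtain ⟨ha, I, hI, s, hs, hnI⟩ := h
  have hz : (algebraMap F L ζ) ^ p = 1 := by rw [← map_pow, hζ, map_one]
  refine ⟨ha, _, d7 ζ hζ hz P I hI, s, hs, ?_⟩
  rw [nm_sg, hnI]

theorem clj_act (hBC : S_BC) (hDIC : S_DIC) (hD : D ≠ 0)
    {L M : Type} [Field L] [Algebra F L] [Field M] [Algebra F M] (φ : L →ₐ[F] M) {P : Jp p r D L} {a : L}
    (h : Clj p r D L P a) : Clj p r D M (act p r D φ P) (φ a) := by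
  have hc : CharZero L := charZero_of_injective_algebraMap (algebraMap F L).injective
  have hDL : algebraMap F L D ≠ 0 := (_root_.map_ne_zero _).2 hD
  obtain ⟨-, -, d3, -, -, -, -, d8⟩ := hDIC p r F D hD L
  obtain ⟨ha, I, hI, s, hs, hnI⟩ := h
  refine ⟨(_root_.map_ne_zero _).2 ha, _, d8 M φ P I hI, φ s, (_root_.map_ne_zero _).2 hs, ?_⟩
  rw [((hBC p r L M (φ : L →+* M) (algebraMap F L D) (algebraMap F M D) (φ.commutes D) hDL).2 I (d3 P I hI)).2, hnI]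
  simp

/-- the point `P_D` -/
theorem clj_t2 (hNMM : S_NMM) (hDIC : S_DIC) (hD : D ≠ 0)
    (L : Type) [Field L] [Algebra F L] : ∃ T : Jp p r D L, Clj p r D L T (algebraMap F L D) ∧ p • T = 0 := by
  have hc : CharZero L := charZero_of_injective_algebraMap (algebraMap F L).injective
  have hDL : algebraMap F L D ≠ 0 := (_root_.map_ne_zero _).2 hD
  obtain ⟨-, d2, d3, d4, d5, -⟩ := hDIC p r F D hD L
  obtain ⟨m1, m2, m3, m4, m5, m6, m7, m8, m9, m10, m11, m12, m13, m14, m15⟩ := hNMM p r L _ hDL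
  obtain ⟨T, hT⟩ := d2 _ m10
  have hpow : ∀ n : ℕ, IsCls p r D (n • T) (t2 p r (algebraMap F L D) ^ n) := by
    intro n
    induction n with
    | zero =>
      rw [pow_zero, zero_nsmul, Ideal.one_eq_top]
      exact d5
    | succ n ih =>
      rw [pow_succ, succ_nsmul]
      exact (d4 _ _ _ _ ih hT).2
  refine ⟨T, ⟨hDL, _, hT, 1, one_ne_zero, ?_⟩, ?_⟩
  · rw [m5]
    ring
  · have hp := hpow p
    rw [m14] at hp
    refine (d4 _ _ _ _ hp d5).1.2 (sim_span_top ?_)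
    intro h0
    apply d3 _ _ hp
    rw [h0, Ideal.span_singleton_eq_bot]

/-- the kernel of the class map -/
theorem clj_ker (hDIC : S_DIC) (hINJ : S_INJ) (hD : D ≠ 0) {ζ : F} (hζ : ζ ^ p = 1)
    (hp : IsPrimitiveRoot ζ p)
    {L : Type} [Field L] [Algebra F L] {P : Jp p r D L} {s : L} (h : Clj p r D L P (s ^ p)) :
    ∃ R : Jp p r D L, P = R - om p r D ζ hζ L R := by
  have hc : CharZero L := charZero_of_injective_algebraMap (algebraMap F L).injective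
  have hDL : algebraMap F L D ≠ 0 := (_root_.map_ne_zero _).2 hD
  obtain ⟨-, d2, d3, d4, -, -, d7, -⟩ := hDIC p r F D hD L
  obtain ⟨ha, I, hI, t, ht, hnI⟩ := h
  have hs : s ≠ 0 := by
    rintro rfl
    exact ha (zero_pow (Fact.out (p := p.Prime)).ne_zero)
  have hz : (algebraMap F L ζ) ^ p = 1 := by rw [← map_pow, hζ, map_one]
  obtain ⟨J, hJ, hsim⟩ := hINJ p r L (algebraMap F L ζ) hz (hp.map_of_injective (algebraMap F L).injective)
    _ hDL I (d3 P I hI) (s * t) (mul_ne_zero hs ht) (by rw [hnI, mul_pow])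
  obtain ⟨R, hR⟩ := d2 J hJ
  refine ⟨R, ?_⟩
  have h1 := d7 ζ hζ hz R J hR
  have h2 := (d4 P _ I _ hI h1).2
  have h3 := (d4 _ _ _ _ h2 hR).1.2 hsim
  exact eq_sub_of_add_eq h3

theorem clj_sub_om (hDED : S_DED) (hNMM : S_NMM) (hMV : S_MV) (hDIC : S_DIC) (hD : D ≠ 0) {ζ : F} (hζ : ζ ^ p = 1)
    {L : Type} [Field L] [Algebra F L] {R : Jp p r D L} {c : L} (h : Clj p r D L (R - om p r D ζ hζ L R) c) :
    ∃ s : L, s ≠ 0 ∧ c = s ^ p := by
  obtain ⟨b, hb⟩ := clj_ex hDED hNMM hMV hDIC hD R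
  have h1 := clj_add hNMM hDIC hD h (clj_om hDIC hD hζ hb)
  rw [sub_add_cancel] at h1
  obtain ⟨s, hs, e⟩ := clj_uniq hMV hDIC hD hb h1
  refine ⟨s, hs, ?_⟩
  apply mul_right_cancel₀ hb.1
  rw [e]
  ring

omit [CharZero F] in
theorem cls_nsmul [CharZero F] (hDIC : S_DIC) (hD : D ≠ 0)
    {L : Type} [Field L] [Algebra F L] {P : Jp p r D L} {I : Ideal (BQ p r (algebraMap F L D))}
    (h : IsCls p r D P I) (n : ℕ) : IsCls p r D (n • P) (I ^ n) := by
  obtain ⟨-, -, -, d4, d5, -⟩ := hDIC p r F D hD L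
  induction n with
  | zero =>
    rw [pow_zero, zero_nsmul, Ideal.one_eq_top]
    exact d5
  | succ n ih =>
    rw [pow_succ, succ_nsmul]
    exact (d4 _ _ _ _ ih h).2

/-- `a` is the class of a torsion point -/
def TC (p r : ℕ) {K : Type} [Field K] (d a : K) : Prop :=
  ∃ I : Ideal (BQ p r d), I ≠ ⊥ ∧ (∃ n : ℕ, 0 < n ∧ Sim (I ^ n) (⊤ : Ideal (BQ p r d))) ∧
    ∃ s : K, s ≠ 0 ∧ nm p r d I = a * s ^ p

theorem cj_of_clj (hDIC : S_DIC) (hD : D ≠ 0) {L : Type} [Field L] [Algebra F L] {P : Jp p r D L} {a : L}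
    (h : Clj p r D L P a) : Cj p r (algebraMap F L D) a := by
  obtain ⟨ha, I, hI, s, hs, hn⟩ := h
  exact ⟨ha, I, (hDIC p r F D hD L).2.2.1 P I hI, s, hs, hn⟩

theorem tc_of_clj (hDIC : S_DIC) (hD : D ≠ 0) {L : Type} [Field L] [Algebra F L] {P : Jp p r D L} {a : L}
    (h : Clj p r D L P a) (hP : IsOfFinAddOrder P) : TC p r (algebraMap F L D) a := by
  obtain ⟨ha, I, hI, s, hs, hn⟩ := h
  obtain ⟨n, hn0, hnP⟩ := isOfFinAddOrder_iff_nsmul_eq_zero.1 hP
  obtain ⟨-, -, d3, d4, d5, -⟩ := hDIC p r F D hD L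
  refine ⟨I, d3 P I hI, ⟨n, hn0, ?_⟩, s, hs, hn⟩
  have h1 := cls_nsmul hDIC hD hI n
  exact (d4 _ _ _ _ h1 d5).1.1 hnP

theorem clj_of_tc (hDIC : S_DIC) (hD : D ≠ 0) {L : Type} [Field L] [Algebra F L] {a : L} (ha : a ≠ 0)
    (h : TC p r (algebraMap F L D) a) : ∃ P : Jp p r D L, IsOfFinAddOrder P ∧ Clj p r D L P a := by
  obtain ⟨I, hI, ⟨n, hn0, hsim⟩, s, hs, hn⟩ := h
  obtain ⟨-, d2, -, d4, d5, -⟩ := hDIC p r F D hD L
  obtain ⟨P, hP⟩ := d2 I hI
  refine ⟨P, isOfFinAddOrder_iff_nsmul_eq_zero.2 ⟨n, hn0, ?_⟩, ha, I, hP, s, hs, hn⟩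
  exact (d4 _ _ _ _ (cls_nsmul hDIC hD hP n) d5).1.2 hsim

end Cl

section coe

variable {F : Type} [Field F] [NumberField F]

theorem coe_alg (v : HeightOneSpectrum (𝓞 F)) (a : F) :
    (a : v.adicCompletion F) = algebraMap F (v.adicCompletion F) a := by
  rw [HeightOneSpectrum.algebraMap_adicCompletion]
  rfl

theorem aTo_iff (p r : ℕ) (v : HeightOneSpectrum (𝓞 F)) (D a : F) :
    ATo p r v D a ↔ a ≠ 0 ∧ TC p r (algebraMap F (v.adicCompletion F) D) (algebraMap F (v.adicCompletion F) a) := by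
  rw [← coe_alg, ← coe_alg]
  rfl

theorem aF_iff (p r : ℕ) (v : HeightOneSpectrum (𝓞 F)) (D a : F) :
    AF p r v D a ↔ Cj p r (algebraMap F (v.adicCompletion F) D) (algebraMap F (v.adicCompletion F) a) := by
  rw [← coe_alg, ← coe_alg]
  rfl

end coe

end Pool.Agent.Q224.CF
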