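import Pool.Agent.Q224.CF.Cls

/-!
# Project CF, part 3, job GLOC: the local classes of the torsion points (helper224)

Adapted from `Pool/Agent/Q53/CE/FLOC.lean` (helper53).
-/

set_option autoImplicit false

namespace Pool.Agent.Q224.CF

open Polynomial NumberField IsDedekindDomain
open Pool.Agent.Q7.CF Pool.Agent.Q7.LK

/-! ## The isomorphism between the curves of `D` and of `D ν^p` -/

section sc

variable (p : ℕ) {L : Type} [Field L]

/-- `X ↦ X / ν`, `Y ↦ Y / ν` -/
noncomputable def scF (D D' ν : L) (hν : ν ≠ 0) (h : D' = D * ν ^ p) : RF p D →+* RF p D' :=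
  AdjoinRoot.lift ((aeval (algebraMap L (RF p D') ν⁻¹ * XF p D') : L[X] →ₐ[L] RF p D') : L[X] →+* RF p D')
    (algebraMap L (RF p D') ν⁻¹ * YF p D') (by
      rw [eval₂_fF]
      have h1 : ((aeval (algebraMap L (RF p D') ν⁻¹ * XF p D') : L[X] →ₐ[L] RF p D') : L[X] →+* RF p D')
          (C D - X ^ p) = algebraMap L (RF p D') D - (algebraMap L (RF p D') ν⁻¹ * XF p D') ^ p := by
        change aeval (algebraMap L (RF p D') ν⁻¹ * XF p D') (C D - X ^ p) = _
        rw [map_sub, aeval_C, map_pow, aeval_X]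
      rw [h1]
      have h2 : algebraMap L (RF p D') D = algebraMap L (RF p D') ν⁻¹ ^ p * algebraMap L (RF p D') D' := by
        rw [← map_pow, ← map_mul, h]
        congr 1
        rw [inv_pow]
        have := pow_ne_zero p hν
        field_simp
      rw [h2, ← fermat_eq p D']
      ring)

theorem scF_of (D D' ν : L) (hν : ν ≠ 0) (h : D' = D * ν ^ p) (g : L[X]) :
    scF p D D' ν hν h (AdjoinRoot.of (fF p D) g) = aeval (algebraMap L (RF p D') ν⁻¹ * XF p D') g := by
  unfold scF
  rw [AdjoinRoot.lift_of]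
  rfl

theorem scF_XF (D D' ν : L) (hν : ν ≠ 0) (h : D' = D * ν ^ p) :
    scF p D D' ν hν h (XF p D) = algebraMap L (RF p D') ν⁻¹ * XF p D' := by
  have h1 := scF_of p D D' ν hν h X
  rw [aeval_X] at h1
  exact h1

theorem scF_YF (D D' ν : L) (hν : ν ≠ 0) (h : D' = D * ν ^ p) :
    scF p D D' ν hν h (YF p D) = algebraMap L (RF p D') ν⁻¹ * YF p D' := by
  unfold scF YF
  rw [AdjoinRoot.lift_root]

theorem scF_alg (D D' ν : L) (hν : ν ≠ 0) (h : D' = D * ν ^ p) (c : L) :
    scF p D D' ν hν h (algebraMap L (RF p D) c) = algebraMap L (RF p D') c := by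
  have h1 := scF_of p D D' ν hν h (C c)
  rw [aeval_C] at h1
  exact h1

theorem scF_scF (D D' ν : L) (hν : ν ≠ 0) (h : D' = D * ν ^ p) (h' : D = D' * ν⁻¹ ^ p) (b : RF p D) :
    scF p D' D ν⁻¹ (inv_ne_zero hν) h' (scF p D D' ν hν h b) = b := by
  have hc : algebraMap L (RF p D) ν⁻¹ * algebraMap L (RF p D) ν⁻¹⁻¹ = 1 := by
    rw [← map_mul, mul_inv_cancel₀ (inv_ne_zero hν), map_one]
  induction b using AdjoinRoot.induction_on with
  | ih q =>
    induction q using Polynomial.induction_on' with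
    | add q r hq hr => rw [map_add, map_add, map_add, hq, hr]
    | monomial n a =>
      rw [← Polynomial.C_mul_X_pow_eq_monomial, map_mul, map_pow, AdjoinRoot.mk_C, AdjoinRoot.mk_X, map_mul, map_mul,
        map_pow, map_pow]
      have h3 : scF p D' D ν⁻¹ (inv_ne_zero hν) h' (scF p D D' ν hν h (AdjoinRoot.root (fF p D))) =
          AdjoinRoot.root (fF p D) := by
        change scF p D' D ν⁻¹ (inv_ne_zero hν) h' (scF p D D' ν hν h (YF p D)) = YF p D
        rw [scF_YF, map_mul, scF_alg, scF_YF, ← mul_assoc, hc, one_mul]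
      have h4 : scF p D' D ν⁻¹ (inv_ne_zero hν) h' (scF p D D' ν hν h (AdjoinRoot.of (fF p D) a)) =
          AdjoinRoot.of (fF p D) a := by
        induction a using Polynomial.induction_on' with
        | add q r hq hr => rw [map_add, map_add, map_add, hq, hr]
        | monomial m c =>
          rw [← Polynomial.C_mul_X_pow_eq_monomial, map_mul, map_pow]
          have h5 : AdjoinRoot.of (fF p D) X = XF p D := rfl
          have h6 : AdjoinRoot.of (fF p D) (C c) = algebraMap L (RF p D) c := rfl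
          rw [h5, h6, map_mul, map_mul, map_pow, map_pow, scF_XF, map_mul, scF_alg, scF_alg, scF_alg, scF_XF,
            ← mul_assoc (algebraMap L (RF p D) ν⁻¹), hc, one_mul]
      rw [h3, h4]

variable (r : ℕ)

theorem scF_mem (D D' ν : L) (hν : ν ≠ 0) (h : D' = D * ν ^ p) (z : RF p D)
    (hz : z ∈ BQ p r D) : scF p D D' ν hν h z ∈ BQ p r D' := by
  unfold BQ at hz
  induction hz using Algebra.adjoin_induction with
  | mem x hx =>
    obtain ⟨a, b, hab, rfl⟩ := hx
    rw [map_mul, map_pow, map_pow, scF_XF, scF_YF]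
    have h1 : (algebraMap L (RF p D') ν⁻¹ * XF p D') ^ a * (algebraMap L (RF p D') ν⁻¹ * YF p D') ^ b =
        algebraMap L (RF p D') (ν⁻¹ ^ a * ν⁻¹ ^ b) * (XF p D' ^ a * YF p D' ^ b) := by
      rw [map_mul, map_pow, map_pow]
      ring
    rw [h1]
    exact (BQ p r D').mul_mem ((BQ p r D').algebraMap_mem _) (mons_mem p r D' hab)
  | algebraMap c =>
    rw [scF_alg]
    exact (BQ p r D').algebraMap_mem _
  | add x y _ _ hx hy => rw [map_add]; exact (BQ p r D').add_mem hx hy
  | mul x y _ _ hx hy => rw [map_mul]; exact (BQ p r D').mul_mem hx hy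

/-- the isomorphism of the coordinate rings of the quotient curves -/
noncomputable def scq (D D' ν : L) (hν : ν ≠ 0) (h : D' = D * ν ^ p) : BQ p r D →+* BQ p r D' :=
  RingHom.codRestrict ((scF p D D' ν hν h).comp ((BQ p r D).val : BQ p r D →+* RF p D)) (BQ p r D')
    (fun z => scF_mem p r D D' ν hν h z.1 z.2)

theorem scq_val (D D' ν : L) (hν : ν ≠ 0) (h : D' = D * ν ^ p) (z : BQ p r D) :
    (scq p r D D' ν hν h z : RF p D') = scF p D D' ν hν h z := rfl

theorem scq_alg (D D' ν : L) (hν : ν ≠ 0) (h : D' = D * ν ^ p) (c : L) :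
    scq p r D D' ν hν h (algebraMap L (BQ p r D) c) = algebraMap L (BQ p r D') c :=
  Subtype.ext (scF_alg p D D' ν hν h c)

theorem scq_scq (D D' ν : L) (hν : ν ≠ 0) (h : D' = D * ν ^ p) (h' : D = D' * ν⁻¹ ^ p) (b : BQ p r D) :
    scq p r D' D ν⁻¹ (inv_ne_zero hν) h' (scq p r D D' ν hν h b) = b :=
  Subtype.ext (scF_scF p D D' ν hν h h' b)

theorem scq_uu (D D' ν : L) (hν : ν ≠ 0) (h : D' = D * ν ^ p) :
    uu p r D' = algebraMap L (BQ p r D') (ν ^ p) * scq p r D D' ν hν h (uu p r D) := by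
  refine Subtype.ext ?_
  change XF p D' ^ p = algebraMap L (RF p D') (ν ^ p) * scF p D D' ν hν h (XF p D ^ p)
  rw [map_pow, map_pow, scF_XF, mul_pow, ← mul_assoc, ← mul_pow, ← map_mul, mul_inv_cancel₀ hν, map_one, one_pow,
    one_mul]

theorem scq_bij (D D' ν : L) (hν : ν ≠ 0) (h : D' = D * ν ^ p) : Function.Bijective (scq p r D D' ν hν h) := by
  have h' : D = D' * ν⁻¹ ^ p := by
    rw [h, inv_pow]
    have := pow_ne_zero p hν
    field_simp
  have h'' : D' = D * ν⁻¹⁻¹ ^ p := by rw [inv_inv]; exact h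
  refine ⟨Function.LeftInverse.injective (scq_scq p r D D' ν hν h h'), fun b => ⟨scq p r D' D ν⁻¹ (inv_ne_zero hν) h' b, ?_⟩⟩
  have h3 := scq_scq p r D' D ν⁻¹ (inv_ne_zero hν) h' h'' b
  have h4 : ∀ (μ : L) (hμ : μ ≠ 0) (hh : D' = D * μ ^ p) (_ : μ = ν), scq p r D D' μ hμ hh = scq p r D D' ν hν h := by
    rintro μ hμ hh rfl
    rfl
  rw [← h4 ν⁻¹⁻¹ (inv_ne_zero (inv_ne_zero hν)) h'' (inv_inv ν)]
  exact h3

/-- the isomorphism as an isomorphism of algebras -/
noncomputable def scE (D D' ν : L) (hν : ν ≠ 0) (h : D' = D * ν ^ p) : BQ p r D ≃ₐ[L] BQ p r D' :=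
  AlgEquiv.ofBijective (AlgHom.mk (scq p r D D' ν hν h) (scq_alg p r D D' ν hν h)) (scq_bij p r D D' ν hν h)

theorem nm_scq (D D' ν : L) (hν : ν ≠ 0) (h : D' = D * ν ^ p) (I : Ideal (BQ p r D)) :
    ∃ k : ℕ, nm p r D' (I.map (scq p r D D' ν hν h)) = nm p r D I * (ν ^ k) ^ p := by
  have hI : I.map (scq p r D D' ν hν h) = I.map ((scE p r D D' ν hν h : BQ p r D ≃ₐ[L] BQ p r D') :
    BQ p r D →+* BQ p r D') := rfl
  let e := Ideal.quotientEquivAlg I (I.map (scq p r D D' ν hν h)) (scE p r D D' ν hν h) hI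
  have he : e (Ideal.Quotient.mk I (uu p r D)) =
      Ideal.Quotient.mk (I.map (scq p r D D' ν hν h)) (scq p r D D' ν hν h (uu p r D)) := rfl
  refine ⟨Module.finrank L (BQ p r D' ⧸ I.map (scq p r D D' ν hν h)), ?_⟩
  unfold nm
  rw [scq_uu p r D D' ν hν h, map_mul, map_mul, ← he, Algebra.norm_eq_of_algEquiv e]
  have h1 : Ideal.Quotient.mk (I.map (scq p r D D' ν hν h)) (algebraMap L (BQ p r D') (ν ^ p)) =
      algebraMap L (BQ p r D' ⧸ I.map (scq p r D D' ν hν h)) (ν ^ p) := rfl
  rw [h1, Algebra.norm_algebraMap]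
  ring

theorem tc_scale [Fact p.Prime] [Ok p r] (D D' ν a : L) (hν : ν ≠ 0) (h : D' = D * ν ^ p) (hT : TC p r D a) :
    TC p r D' a := by
  obtain ⟨I, hI, ⟨n, hn, hsim⟩, s, hs, e⟩ := hT
  have hinj := (scq_bij p r D D' ν hν h).1
  obtain ⟨k, hk⟩ := nm_scq p r D D' ν hν h I
  refine ⟨I.map (scq p r D D' ν hν h), ne_bot_map _ hinj hI, ⟨n, hn, ?_⟩, s * ν ^ k,
    mul_ne_zero hs (pow_ne_zero k hν), ?_⟩
  · have h1 := sim_map hsim (scq p r D D' ν hν h) hinj
    rw [Ideal.map_pow, Ideal.map_top] at h1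
    exact h1
  · rw [hk, e]
    ring

end sc

/-! ## Counting -/

/-- a finite group with an endomorphism: index of the image -/
theorem index_range {G : Type*} [AddCommGroup G] [Finite G] (f : G →+ G) :
    f.range.index = Nat.card f.ker := by
  have h1 := f.ker.card_mul_index
  have h2 := f.range.card_mul_index
  rw [AddSubgroup.index_ker] at h1
  have h3 : Nat.card f.range * f.range.index = Nat.card f.range * Nat.card f.ker := by
    rw [h2, ← h1, mul_comm]
  exact Nat.eq_of_mul_eq_mul_left Nat.card_pos h3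

/-- torsion elements in different classes modulo `1 - σ` -/
theorem count_tor {A : Type*} [AddCommGroup A] (im : A →+ A) (N : ℕ) (hN : 0 < N) (him : ∀ x, im^[N] x = x)
    (T : Finset A) (hT : ∀ x, x - im x = 0 → x ∈ T) {ι : Type*} (B : Finset ι) (P : ι → A)
    (hP : ∀ b ∈ B, IsOfFinAddOrder (P b))
    (hB : ∀ b ∈ B, ∀ b' ∈ B, ∀ R : A, P b' - P b = R - im R → b = b') : B.card ≤ T.card := by
  classical
  set S : Set A := (fun q : ι × ℕ => im^[q.2] (P q.1)) '' ((B ×ˢ Finset.range N : Finset (ι × ℕ)) : Set (ι × ℕ)) with hS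
  have hSf : S.Finite := (Finset.finite_toSet _).image _
  have hmem : ∀ b ∈ B, ∀ i < N, im^[i] (P b) ∈ S := by
    intro b hb i hi
    refine ⟨(b, i), ?_, rfl⟩
    rw [Finset.mem_coe, Finset.mem_product]
    exact ⟨hb, Finset.mem_range.2 hi⟩
  have hcases : ∀ x ∈ S, ∃ b ∈ B, ∃ i < N, x = im^[i] (P b) := by
    rintro x ⟨⟨b, i⟩, hq, rfl⟩
    rw [Finset.mem_coe, Finset.mem_product] at hq
    exact ⟨b, hq.1, i, Finset.mem_range.1 hq.2, rfl⟩
  set G := AddSubgroup.closure S with hG
  have hit : ∀ (i : ℕ) (x : A), IsOfFinAddOrder x → IsOfFinAddOrder (im^[i] x) := by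
    intro i
    induction i with
    | zero => exact fun x hx => hx
    | succ i ih =>
      intro x hx
      rw [Function.iterate_succ_apply]
      exact ih _ (im.isOfFinAddOrder hx)
  have hStor : ∀ x ∈ S, IsOfFinAddOrder x := by
    intro x hx
    obtain ⟨b, hb, i, -, rfl⟩ := hcases x hx
    exact hit i _ (hP b hb)
  have hGtor : ∀ x ∈ G, IsOfFinAddOrder x := by
    have h1 : G ≤ AddCommGroup.torsion A := by
      rw [hG, AddSubgroup.closure_le]
      intro x hx
      exact hStor x hx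
    intro x hx
    exact h1 hx
  have hGim : ∀ x ∈ G, im x ∈ G := by
    intro x hx
    induction hx using AddSubgroup.closure_induction with
    | mem x hx =>
      obtain ⟨b, hb, i, hi, rfl⟩ := hcases x hx
      have h1 : im (im^[i] (P b)) = im^[i + 1] (P b) := (Function.iterate_succ_apply' _ _ _).symm
      rw [h1]
      rcases Nat.lt_or_ge (i + 1) N with h2 | h2
      · exact AddSubgroup.subset_closure (hmem b hb _ h2)
      · have h3 : i + 1 = N := by omega
        rw [h3, him]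
        exact AddSubgroup.subset_closure (hmem b hb 0 hN)
    | zero => rw [map_zero]; exact zero_mem _
    | add x y _ _ hx hy => rw [map_add]; exact add_mem hx hy
    | neg x _ hx => rw [map_neg]; exact neg_mem hx
  have hfg : AddGroup.FG G := by
    have : Finite S := hSf
    exact AddGroup.closure_finite_fg S
  have hfin : Finite G := by
    refine AddCommGroup.finite_of_fg_isAddTorsion G fun x => ?_
    have h1 := hGtor x.1 x.2
    rw [isOfFinAddOrder_iff_nsmul_eq_zero] at h1 ⊢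
    obtain ⟨n, hn, h2⟩ := h1
    exact ⟨n, hn, Subtype.ext h2⟩
  let f : G →+ G :=
    { toFun := fun x => ⟨x.1 - im x.1, sub_mem x.2 (hGim x.1 x.2)⟩
      map_zero' := by
        apply Subtype.ext
        show (0 : A) - im 0 = 0
        rw [map_zero, sub_zero]
      map_add' := fun x y => by
        apply Subtype.ext
        show (x.1 + y.1) - im (x.1 + y.1) = (x.1 - im x.1) + (y.1 - im y.1)
        rw [map_add]
        abel }
  have hker : Nat.card f.ker ≤ T.card := by
    rw [← Nat.card_eq_finsetCard T]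
    refine Nat.card_le_card_of_injective (fun x : f.ker => (⟨x.1.1, ?_⟩ : T)) ?_
    · have h1 : f x.1 = 0 := x.2
      have h2 : (f x.1).1 = 0 := by rw [h1]; rfl
      exact hT _ h2
    · intro x y hxy
      apply Subtype.ext
      apply Subtype.ext
      have h1 := congrArg (fun z : T => (z : A)) hxy
      exact h1
  have hidx : Nat.card (G ⧸ f.range) ≤ T.card := by
    have : Nat.card (G ⧸ f.range) = f.range.index := rfl
    rw [this, index_range]
    exact hker
  refine le_trans ?_ hidx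
  rw [← Nat.card_eq_finsetCard]
  refine Nat.card_le_card_of_injective
    (fun b : B => ((⟨P b.1, AddSubgroup.subset_closure (hmem b.1 b.2 0 hN)⟩ : G) : G ⧸ f.range)) ?_
  intro b b' hbb
  apply Subtype.ext
  have h1 := QuotientAddGroup.eq.1 hbb
  obtain ⟨R, hR⟩ := h1
  refine hB b.1 b.2 b'.1 b'.2 R.1 ?_
  have h2 := congrArg Subtype.val hR
  have h3 : R.1 - im R.1 = -P b.1 + P b'.1 := h2
  rw [h3]
  abel

/-- **Job GLOC.** -/
theorem gloc : S_BAS → S_CPL → S_FLOC → S_BSC → S_DED → S_NMM → S_MV → S_BC → S_INJ → S_AMB → S_DIC → S_FUN →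
    S_STR → S_GLOC := by
  intro _ hCPL hFLOC _ hDED hNMM hMV _ _ _ hDIC _ hSTR p r _ _ F _ _ ζ hζ S
  have hL := hFLOC p r F ζ hζ
  have hz : ζ ^ p = 1 := hζ.pow_eq_one
  have hp0 : p ≠ 0 := (Fact.out (p := p.Prime)).ne_zero
  have hroot : ∀ (v : HeightOneSpectrum (𝓞 F)) (b : F), Lpw p v b → b ≠ 0 ∧ ∃ s : v.adicCompletion F, s ≠ 0 ∧
      algebraMap F (v.adicCompletion F) b = s ^ p := by
    intro v b hb
    obtain ⟨hb0, s, hs⟩ := (hCPL p F v b).1 hb
    rw [coe_alg] at hs
    refine ⟨hb0, s, ?_, hs⟩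
    rintro rfl
    rw [zero_pow hp0] at hs
    exact (_root_.map_ne_zero _).2 hb0 hs
  refine ⟨?_, ?_, ?_, ?_, ?_, ?_, ?_⟩
  · -- ne
    intro v D a hv hD h
    by_cases hvS : v ∈ S
    · exact (h.1 hvS).1
    · exact hL.ne v D a hv hD (h.2 hvS)
  · -- mul
    intro v D a b hv hD h hb
    refine ⟨fun hvS => ?_, fun hvS => hL.mul v D a b hv hD (h.2 hvS) hb⟩
    have h1 := h.1 hvS
    rw [aTo_iff] at h1 ⊢
    obtain ⟨ha, I, hI, hn, t, ht, e⟩ := h1
    obtain ⟨hb0, s, hs0, hs⟩ := hroot v b hb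
    refine ⟨mul_ne_zero ha hb0, I, hI, hn, t / s, div_ne_zero ht hs0, ?_⟩
    rw [e, map_mul, hs, div_pow]
    have := pow_ne_zero p hs0
    field_simp
  · -- inv
    intro v D n a hv hD hn h
    refine ⟨fun hvS => ?_, fun hvS => hL.inv v D n a hv hD hn (h.2 hvS)⟩
    have h1 := h.1 hvS
    rw [aTo_iff] at h1 ⊢
    obtain ⟨hn0, ν, hν0, hν⟩ := hroot v n hn
    exact ⟨h1.1, tc_scale p r _ _ ν _ hν0 (by rw [map_mul, hν]) h1.2⟩
  · -- clo
    intro v D a hv hD h
    refine ⟨fun hvS => ?_, fun hvS => hL.clo v D a hv hD (h.2 hvS)⟩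
    have h1 := h.1 hvS
    rw [aTo_iff] at h1 ⊢
    refine ⟨mul_ne_zero h1.1 hD, ?_⟩
    obtain ⟨P, hP, hc⟩ := clj_of_tc hDIC hD ((_root_.map_ne_zero _).2 h1.1) h1.2
    obtain ⟨T, cT, hT⟩ := clj_t2 hNMM hDIC hD (p := p) (r := r) (v.adicCompletion F)
    have hTt : IsOfFinAddOrder T :=
      isOfFinAddOrder_iff_nsmul_eq_zero.2 ⟨p, (Fact.out (p := p.Prime)).pos, hT⟩
    rw [map_mul]
    exact tc_of_clj hDIC hD (clj_add hNMM hDIC hD hc cT) (hP.add hTt)
  · -- pow
    intro v D a hv hD h n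
    refine ⟨fun hvS => ?_, fun hvS => hL.pow v D a hv hD (h.2 hvS) n⟩
    have h1 := h.1 hvS
    rw [aTo_iff] at h1 ⊢
    refine ⟨pow_ne_zero n h1.1, ?_⟩
    obtain ⟨P, hP, hc⟩ := clj_of_tc hDIC hD ((_root_.map_ne_zero _).2 h1.1) h1.2
    rw [map_pow]
    exact tc_of_clj hDIC hD (clj_nsmul hNMM hDIC hD hc n) hP.nsmul
  · -- num
    intro v D hv hD B hB hne
    by_cases hvS : v ∈ S
    · have h1 : cS p S v = 0 := by
        unfold cS
        rw [if_pos hvS]
      rw [h1, zero_add, pow_one]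
      classical
      have hex : ∀ b ∈ B, ∃ P : Jp p r D (v.adicCompletion F), IsOfFinAddOrder P ∧
          Clj p r D (v.adicCompletion F) P (algebraMap F (v.adicCompletion F) b) := by
        intro b hb
        have h2 := (hB b hb).1 hvS
        rw [aTo_iff] at h2
        exact clj_of_tc hDIC hD ((_root_.map_ne_zero _).2 h2.1) h2.2
      choose! P hP using hex
      obtain ⟨s1, s2, s3, -, -, -⟩ := hSTR p r F ζ hz hζ D hD (v.adicCompletion F)
      set T : Finset (Jp p r D (v.adicCompletion F)) :=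
        (Finset.range p).image (fun j => j • tT p r D (v.adicCompletion F)) with hTdef
      have hTp : T.card ≤ p := by
        refine Finset.card_image_le.trans ?_
        rw [Finset.card_range]
      have hT : ∀ x, x - om p r D ζ hz (v.adicCompletion F) x = 0 → x ∈ T := by
        intro x hx
        obtain ⟨j, rfl⟩ := s3 x (sub_eq_zero.1 hx).symm
        rw [hTdef, Finset.mem_image]
        refine ⟨j % p, Finset.mem_range.2 (Nat.mod_lt _ (Fact.out (p := p.Prime)).pos), ?_⟩
        conv_rhs => rw [← Nat.mod_add_div j p, add_nsmul, mul_comm, mul_nsmul', s2, nsmul_zero, add_zero]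
      have him : ∀ x : Jp p r D (v.adicCompletion F), (om p r D ζ hz (v.adicCompletion F))^[p] x = x := by
        intro x
        have h3 := s1 (om p r D ζ hz (v.adicCompletion F) x)
        have h4 := s1 x
        have h5 : ∑ i ∈ Finset.range p, (om p r D ζ hz (v.adicCompletion F))^[i] (om p r D ζ hz (v.adicCompletion F) x) =
            ∑ i ∈ Finset.range p, (om p r D ζ hz (v.adicCompletion F))^[i + 1] x :=
          Finset.sum_congr rfl fun i _ => (Function.iterate_succ_apply _ _ _).symm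
        rw [h5] at h3
        have h6 := Finset.sum_range_sub (fun i => (om p r D ζ hz (v.adicCompletion F))^[i] x) p
        rw [Finset.sum_sub_distrib, h3, h4, sub_zero] at h6
        exact (sub_eq_zero.1 h6.symm)
      refine (count_tor (om p r D ζ hz (v.adicCompletion F)) p (Fact.out (p := p.Prime)).pos him T hT B P
        (fun b hb => (hP b hb).1) ?_).trans hTp
      intro b hb b' hb' R hR
      by_contra hbb
      apply hne b hb b' hb' hbb
      have hb0 : b ≠ 0 := ((hB b hb).1 hvS).1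
      have hb0' : b' ≠ 0 := ((hB b' hb').1 hvS).1
      have e1 : P b' = P b + (R - om p r D ζ hz (v.adicCompletion F) R) := by
        rw [← hR]
        abel
      obtain ⟨c, hc⟩ := clj_ex hDED hNMM hMV hDIC hD (R - om p r D ζ hz (v.adicCompletion F) R)
      obtain ⟨s, hs, rfl⟩ := clj_sub_om hDED hNMM hMV hDIC hD hz hc
      have c1 := clj_add hNMM hDIC hD (hP b hb).2 hc
      rw [← e1] at c1
      obtain ⟨s', hs', e⟩ := clj_uniq hMV hDIC hD (hP b' hb').2 c1
      rw [hCPL]
      refine ⟨div_ne_zero hb0 hb0', s' / s, ?_⟩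
      rw [coe_alg, map_div₀, div_pow, div_eq_div_iff ((_root_.map_ne_zero _).2 hb0') (pow_ne_zero p hs), e]
      ring
    · have h1 : cS p S v = dv p v / 2 := by
        unfold cS
        rw [if_neg hvS]
      rw [h1]
      exact hL.num v D hv hD B (fun b hb => (hB b hb).2 hvS) hne
  · -- zero
    intro v hv
    unfold cS
    split_ifs
    · rfl
    · exact hL.zero v hv

end Pool.Agent.Q224.CF
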