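import Pool.Agent.Q224.CF.Cls

/-!
# Project CF, part 3, job GS2: independence over `ℤ_p` (helper224)

Adapted from `Pool/Agent/Q275/CE/FS2.lean` (helper275).
-/

set_option autoImplicit false

namespace Pool.Agent.Q224.CF

open Polynomial NumberField IsDedekindDomain
open Pool.Agent.Q7.CF Pool.Agent.Q7.LK

section alg

variable {A : Type} [AddCommGroup A]

/-- `1 - σ` -/
def th (σ : A →+ A) : A →+ A where
  toFun := fun x => x - σ x
  map_zero' := by rw [map_zero, sub_zero]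
  map_add' := fun x y => by rw [map_add]; abel

/-- `p / (1 - σ)` -/
def thp (σ : A →+ A) (p : ℕ) : A →+ A where
  toFun := fun x => ∑ i ∈ Finset.range p, ∑ j ∈ Finset.range i, σ^[j] x
  map_zero' := by
    refine Finset.sum_eq_zero fun i _ => Finset.sum_eq_zero fun j _ => ?_
    exact iterate_map_zero σ j
  map_add' := fun x y => by
    rw [← Finset.sum_add_distrib]
    refine Finset.sum_congr rfl fun i _ => ?_
    rw [← Finset.sum_add_distrib]
    refine Finset.sum_congr rfl fun j _ => ?_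
    exact iterate_map_add σ j x y

theorem thp_aux (σ : A →+ A) (p : ℕ) (h : ∀ x, ∑ i ∈ Finset.range p, σ^[i] x = 0) (x : A) :
    ∑ i ∈ Finset.range p, ∑ j ∈ Finset.range i, (σ^[j] x - σ^[j + 1] x) = p • x := by
  have h1 : ∀ i ∈ Finset.range p, ∑ j ∈ Finset.range i, (σ^[j] x - σ^[j + 1] x) = x - σ^[i] x := by
    intro i _
    rw [Finset.sum_range_sub' (fun j => σ^[j] x)]
    rfl
  rw [Finset.sum_congr rfl h1, Finset.sum_sub_distrib, h x, sub_zero, Finset.sum_const, Finset.card_range]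

theorem thp_th (σ : A →+ A) (p : ℕ) (h : ∀ x, ∑ i ∈ Finset.range p, σ^[i] x = 0) (x : A) :
    thp σ p (th σ x) = p • x := by
  rw [← thp_aux σ p h x]
  change ∑ i ∈ Finset.range p, ∑ j ∈ Finset.range i, σ^[j] (x - σ x) = _
  refine Finset.sum_congr rfl fun i _ => Finset.sum_congr rfl fun j _ => ?_
  rw [iterate_map_sub, Function.iterate_succ_apply]

theorem th_thp (σ : A →+ A) (p : ℕ) (h : ∀ x, ∑ i ∈ Finset.range p, σ^[i] x = 0) (x : A) :
    th σ (thp σ p x) = p • x := by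
  rw [← thp_aux σ p h x]
  change (∑ i ∈ Finset.range p, ∑ j ∈ Finset.range i, σ^[j] x) -
    σ (∑ i ∈ Finset.range p, ∑ j ∈ Finset.range i, σ^[j] x) = _
  rw [map_sum, ← Finset.sum_sub_distrib]
  refine Finset.sum_congr rfl fun i _ => ?_
  rw [map_sum, ← Finset.sum_sub_distrib]
  refine Finset.sum_congr rfl fun j _ => ?_
  rw [Function.iterate_succ_apply']

end alg

/-- **Job GS2.** -/
theorem gs2 : S_GS1 → S_DED → S_NMM → S_MV → S_BC → S_INJ → S_FCOND → S_DIC → S_FUN → S_STR → S_GS2 := by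
  intro hGS1 hDED hNMM hMV hBC hINJ hFCOND hDIC hFUN hSTR p r _ _ F _ _ ζ hζ D hD S hS hbad hFG t P hP a ha
  by_contra hne
  have hz : ζ ^ p = 1 := hζ.pow_eq_one
  obtain ⟨Q, hQ, hloc⟩ := hGS1 p (Jp p r D F) (Module.Finite.iff_addGroup_fg.2 hFG)
    (th (om p r D ζ hz F)) (thp (om p r D ζ hz F) p)
    (fun x => ⟨thp_th _ p (hSTR p r F ζ hz hζ D hD F).1 x, th_thp _ p (hSTR p r F ζ hz hζ D hD F).1 x, by
      obtain ⟨-, -, -, -, -, n, hn⟩ := hSTR p r F ζ hz hζ D hD F
      exact ⟨_, hn x⟩⟩) S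
    (fun v => Jp p r D (v.1.adicCompletion F)) (fun v => th (om p r D ζ hz (v.1.adicCompletion F)))
    (fun v => thp (om p r D ζ hz (v.1.adicCompletion F)) p)
    (fun v => act p r D (Algebra.ofId F (v.1.adicCompletion F)))
    (fun v x => by
      obtain ⟨-, -, -, h4⟩ := hFUN p r F D hD F (v.1.adicCompletion F) (v.1.adicCompletion F)
        (Algebra.ofId F (v.1.adicCompletion F)) (AlgHom.id F _)
      have h5 := (h4 ζ hz).2 x
      change act p r D (Algebra.ofId F (v.1.adicCompletion F)) (x - om p r D ζ hz F x) =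
        act p r D (Algebra.ofId F (v.1.adicCompletion F)) x -
          om p r D ζ hz (v.1.adicCompletion F) (act p r D (Algebra.ofId F (v.1.adicCompletion F)) x)
      rw [map_sub, h5])
    (fun v x => th_thp _ p (hSTR p r F ζ hz hζ D hD (v.1.adicCompletion F)).1 x)
    t P hP a hne (fun v n => ha v.1 v.2 n)
  obtain ⟨a0, ha0⟩ := clj_ex hDED hNMM hMV hDIC hD Q
  have hne0 : a0 ≠ 0 := ha0.1
  have hact : ∀ v : HeightOneSpectrum (𝓞 F), Clj p r D (v.adicCompletion F)
      (act p r D (Algebra.ofId F (v.adicCompletion F)) Q) (algebraMap F (v.adicCompletion F) a0) :=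
    fun v => clj_act hBC hDIC hD (Algebra.ofId F (v.adicCompletion F)) ha0
  have hAF : ∀ v, AF p r v D a0 := fun v => (aF_iff p r v D a0).2 (cj_of_clj hDIC hD (hact v))
  have hC := hFCOND p r F ζ hζ D a0 hD hAF
  have hC' : Cond p (AS p r S) D a0 := by
    refine ⟨hC.ne, hC.unr, hC.ram, fun v hv => ⟨fun hvS => ?_, fun _ => hAF v⟩⟩
    rw [aTo_iff]
    refine ⟨hne0, ?_⟩
    obtain ⟨x, τ, hτ, he⟩ := hloc ⟨v, hvS⟩
    have he' : act p r D (Algebra.ofId F (v.adicCompletion F)) Q =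
        (x - om p r D ζ hz (v.adicCompletion F) x) + τ := he
    have c1 := hact v
    rw [he'] at c1
    obtain ⟨b, hb⟩ := clj_ex hDED hNMM hMV hDIC hD τ
    obtain ⟨c, hc⟩ := clj_ex hDED hNMM hMV hDIC hD (x - om p r D ζ hz (v.adicCompletion F) x)
    obtain ⟨s, hs, rfl⟩ := clj_sub_om hDED hNMM hMV hDIC hD hz hc
    obtain ⟨s', hs', e⟩ := clj_uniq hMV hDIC hD (clj_add hNMM hDIC hD hc hb) c1
    have c4 := clj_mul_pow hb (mul_ne_zero hs hs')
    refine tc_of_clj hDIC hD (P := τ) ?_ hτ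
    have e2 : algebraMap F (v.adicCompletion F) a0 = b * (s * s') ^ p := by
      rw [e]
      ring
    rw [e2]
    exact c4
  refine hbad ⟨a0, hC', ?_⟩
  rintro j ⟨x, hx⟩
  obtain ⟨T, cT, hT⟩ := clj_t2 hNMM hDIC hD (p := p) (r := r) F
  have cx : Clj p r D F (Q + j • T) (x ^ p) := by
    rw [← hx]
    exact clj_add hNMM hDIC hD ha0 (clj_nsmul hNMM hDIC hD cT j)
  obtain ⟨R, hR⟩ := clj_ker hDIC hINJ hD hz hζ cx
  have htor : IsOfFinAddOrder T :=
    isOfFinAddOrder_iff_nsmul_eq_zero.2 ⟨p, (Fact.out (p := p.Prime)).pos, hT⟩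
  have htor2 : IsOfFinAddOrder (-(j • T)) := (htor.nsmul).neg
  refine hQ R (-(j • T)) htor2 ?_
  change Q = (R - om p r D ζ hz F R) + -(j • T)
  rw [← hR]
  abel

end Pool.Agent.Q224.CF
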