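import Pool.Agent.Q224.CJ.TAME
import Pool.Agent.Q7.CF.Stm

/-!
# Project CF, job TAME: the classes are unramified where `D` is (helper224)
-/

set_option autoImplicit false

namespace Pool.Agent.Q224.CF

open Polynomial NumberField IsDedekindDomain WithZero
open Pool.Agent.Q7.CF
open Pool.Agent.Q7.LK
open Pool.Agent.Q224.CJ (val_lt_iff add_val lg lg_mul lg_pow lg_eq)

section

variable {F : Type} [Field F] [NumberField F] (v : HeightOneSpectrum (𝓞 F))

theorem key {L : Type} [Field L] [Algebra (v.adicCompletion F) L] [FiniteDimensional (v.adicCompletion F) L]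
    (p r : ℕ) (hp : p.Prime) (hr2 : r + 2 ≤ p) (d : v.adicCompletion F) (hd : d ≠ 0)
    (hpd : (p : ℤ) ∣ lg v d) (x u : L) (hu : u ≠ 0) (h : x ^ p = u * (algebraMap (v.adicCompletion F) L d - u) ^ r) :
    (p : ℤ) ∣ lg v (Algebra.norm (v.adicCompletion F) u) := by
  have hNd : Algebra.norm (v.adicCompletion F) (algebraMap (v.adicCompletion F) L d) =
      d ^ Module.finrank (v.adicCompletion F) L := Algebra.norm_algebraMap d
  have hlgd : (p : ℤ) ∣ lg v (Algebra.norm (v.adicCompletion F) (algebraMap (v.adicCompletion F) L d)) := by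
    rw [hNd, lg_pow]
    exact hpd.mul_left _
  have hdL : algebraMap (v.adicCompletion F) L d ≠ 0 := by
    rw [Ne, map_eq_zero_iff _ (algebraMap (v.adicCompletion F) L).injective]
    exact hd
  have hN0 : ∀ z : L, z ≠ 0 → Algebra.norm (v.adicCompletion F) z ≠ 0 := fun z hz => Algebra.norm_ne_zero_iff.2 hz
  have hneg : (Valued.v (Algebra.norm (v.adicCompletion F) (-u)) : WithZero (Multiplicative ℤ)) =
      Valued.v (Algebra.norm (v.adicCompletion F) u) := by
    have h1 : -u = (-1) * u := by ring
    have h2 : Algebra.norm (v.adicCompletion F) (-u) =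
        (-1) ^ Module.finrank (v.adicCompletion F) L * Algebra.norm (v.adicCompletion F) u := by
      rw [h1, map_mul]
      congr 1
      have h3 := Algebra.norm_algebraMap (S := L) (-1 : v.adicCompletion F)
      rw [map_neg, map_one] at h3
      exact h3
    rw [h2, map_mul, map_pow, Valuation.map_neg, map_one, one_pow, one_mul]
  by_cases hud : algebraMap (v.adicCompletion F) L d - u = 0
  · have h1 : u = algebraMap (v.adicCompletion F) L d := (sub_eq_zero.1 hud).symm
    rw [h1]
    exact hlgd
  · have hx : x ≠ 0 := by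
      rintro rfl
      rw [zero_pow hp.ne_zero] at h
      exact mul_ne_zero hu (pow_ne_zero r hud) h.symm
    have h1 : lg v (Algebra.norm (v.adicCompletion F) u) +
        r * lg v (Algebra.norm (v.adicCompletion F) (algebraMap (v.adicCompletion F) L d - u)) =
        p * lg v (Algebra.norm (v.adicCompletion F) x) := by
      rw [← lg_pow, ← lg_mul v (hN0 _ hu) (pow_ne_zero r (hN0 _ hud)), ← map_pow, ← map_mul, ← h, map_pow, lg_pow]
    have hsub : algebraMap (v.adicCompletion F) L d - u = -u + algebraMap (v.adicCompletion F) L d := by ring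
    rcases lt_trichotomy (Valued.v (Algebra.norm (v.adicCompletion F) u) : WithZero (Multiplicative ℤ))
      (Valued.v (Algebra.norm (v.adicCompletion F) (algebraMap (v.adicCompletion F) L d))) with hlt | heq | hgt
    · rw [← hneg] at hlt
      have h2 := lg_eq v (add_val v _ _ hlt)
      rw [← hsub] at h2
      rw [h2] at h1
      have h3 : lg v (Algebra.norm (v.adicCompletion F) u) = p * lg v (Algebra.norm (v.adicCompletion F) x) -
          r * lg v (Algebra.norm (v.adicCompletion F) (algebraMap (v.adicCompletion F) L d)) := by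
        linear_combination h1
      rw [h3]
      exact dvd_sub (dvd_mul_right _ _) (hlgd.mul_left _)
    · rw [lg_eq v heq]
      exact hlgd
    · rw [← hneg] at hgt
      have h2 := lg_eq v (add_val v _ _ hgt)
      rw [add_comm, ← hsub, lg_eq v hneg] at h2
      rw [h2] at h1
      have h3 : (p : ℤ) ∣ ((r + 1 : ℕ) : ℤ) * lg v (Algebra.norm (v.adicCompletion F) u) :=
        ⟨lg v (Algebra.norm (v.adicCompletion F) x), by push_cast; linear_combination h1⟩
      have hp' : Prime (p : ℤ) := Nat.prime_iff_prime_int.1 hp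
      rcases hp'.dvd_or_dvd h3 with h4 | h4
      · exfalso
        have h5 : p ∣ r + 1 := by exact_mod_cast h4
        have h6 := Nat.le_of_dvd (by omega) h5
        omega
      · exact h4

/-- the value of `u` at an ideal has an order divisible by `p` -/
theorem nm_dvd (hded : S_DED) (hnmm : S_NMM) (p r : ℕ) [Fact p.Prime] [Ok p r] (d : v.adicCompletion F) (hd : d ≠ 0)
    (hpd : (p : ℤ) ∣ lg v d) (I : Ideal (BQ p r d)) (hI : I ≠ ⊥) (hn : nm p r d I ≠ 0) :
    (p : ℤ) ∣ lg v (nm p r d I) := by
  have hinj : Function.Injective (algebraMap F (v.adicCompletion F)) := (algebraMap F (v.adicCompletion F)).injective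
  haveI : CharZero (v.adicCompletion F) := charZero_of_injective_algebraMap hinj
  obtain ⟨hD, hfin, -, -⟩ := hded p r (v.adicCompletion F) d hd
  obtain ⟨hmul, htop, hrest⟩ := hnmm p r (v.adicCompletion F) d hd
  revert hI hn
  induction I using UniqueFactorizationMonoid.induction_on_prime with
  | h₁ => intro hI; exact absurd rfl hI
  | h₂ J hJ =>
    intro _ _
    rw [Ideal.isUnit_iff] at hJ
    rw [hJ, htop]
    unfold lg
    simp
  | h₃ J P hJ hP ih =>
    intro hI hn
    have hP0 : P ≠ ⊥ := hP.ne_zero
    have hJ0 : J ≠ ⊥ := hJ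
    rw [(hmul P J hP0 hJ0).1] at hn ⊢
    have hnP : nm p r d P ≠ 0 := left_ne_zero_of_mul hn
    have hnJ : nm p r d J ≠ 0 := right_ne_zero_of_mul hn
    rw [lg_mul v hnP hnJ]
    refine dvd_add ?_ (ih hJ0 hnJ)
    haveI hPp : P.IsPrime := Ideal.isPrime_of_prime hP
    haveI hPm : P.IsMaximal := hPp.isMaximal hP0
    letI : Field (BQ p r d ⧸ P) := Ideal.Quotient.field P
    haveI := hfin P hP0
    have hy0 : (Ideal.Quotient.mk P (uu p r d)) ≠ 0 := by
      intro h0
      apply hnP
      unfold nm
      rw [h0]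
      exact Algebra.norm_zero
    refine key v p r Fact.out Ok.h2 d hd hpd (Ideal.Quotient.mk P (vv p r d)) (Ideal.Quotient.mk P (uu p r d)) hy0 ?_
    have h1 := congrArg (Ideal.Quotient.mk P) (vv_pow p r d)
    have h2 : ww p r d = algebraMap (v.adicCompletion F) (BQ p r d) d - uu p r d := by
      rw [← uu_add_ww p r d]
      ring
    rw [map_mul, map_pow, map_pow, h2, map_sub] at h1
    exact h1

end

theorem tame' (hded : S_DED) (hnmm : S_NMM) : S_TAME := by
  intro p r _ _ F _ _ v D a hD hv hA
  obtain ⟨ha, I, hI, s, hs, hnm⟩ := hA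
  have hinj : Function.Injective (algebraMap F (v.adicCompletion F)) := (algebraMap F (v.adicCompletion F)).injective
  have hDK : (D : v.adicCompletion F) ≠ 0 := by
    change algebraMap F (v.adicCompletion F) D ≠ 0
    rw [Ne, map_eq_zero_iff _ hinj]
    exact hD
  have hval : ∀ b : F, lg v (b : v.adicCompletion F) = WithZero.log (v.valuation F b) := by
    intro b
    unfold lg
    rw [HeightOneSpectrum.valuedAdicCompletion_eq_valuation']
  have hvl : ∀ b : F, vl p v b = 0 ↔ (p : ℤ) ∣ lg v (b : v.adicCompletion F) := by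
    intro b
    rw [hval]
    unfold vl
    rw [neg_eq_zero, ZMod.intCast_zmod_eq_zero_iff_dvd]
  rw [hvl] at hv ⊢
  have hn0 : nm p r (D : v.adicCompletion F) I ≠ 0 := by
    rw [hnm]
    exact mul_ne_zero ha (pow_ne_zero p hs)
  have h1 := nm_dvd v hded hnmm p r (D : v.adicCompletion F) hDK hv I hI hn0
  rw [hnm, lg_mul v ha (pow_ne_zero p hs), lg_pow] at h1
  exact (Int.dvd_iff_dvd_of_dvd_add h1).2 (dvd_mul_right _ _)

theorem tame (_ : S_BAS) (hded : S_DED) (hnmm : S_NMM) : S_TAME := tame' hded hnmm

end Pool.Agent.Q224.CF
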